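import Pool.Agent.MP_698530_nt.Low

set_option autoImplicit false

namespace Pool.Agent.Results.MP_698530_nt.AllShifts

open Finset

theorem result (r c : ℕ) (S : Finset (ℕ × ℕ)) (hc : 0 < c)
    (hS : ∀ x ∈ S, x.2 ≤ x.1 ∧ Nat.Coprime x.1 x.2) :
    (∀ a b n : ℕ, 0 < b → b < a → 0 < n →
      (∏ j ∈ range r, (2 * b * n + (2 * j + 1))) * (2 * b * n).choose (b * n) ∣
        c * (S.lcm fun x => x.1 * a - x.2 * b) *
          ((2 * a * n).choose (a * n) * (a * n).choose (b * n))) ↔
    (∏ j ∈ range r, (2 * j + 1)) ∣ c ∧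
      ∀ u v : ℕ, Odd u → Odd v → v ≤ u → u < 2 * r → Nat.Coprime u v → (u, v) ∈ S := by
  rw [← Pool.Agent.MP_698530_nt.main r c S hc.ne' hS]
  constructor
  · intro h b d n hb hd hn
    have := h (d + b) b n hb (by omega) hn
    simpa only [Nat.centralBinom, mul_assoc, add_mul] using this
  · intro h a b n hb hab hn
    obtain ⟨d, rfl⟩ : ∃ d, a = d + b := ⟨a - b, by omega⟩
    have := h b d n hb (by omega) hn
    simpa only [Nat.centralBinom, mul_assoc, add_mul] using this

end Pool.Agent.Results.MP_698530_nt.AllShifts
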