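import Pool.Agent.MP_698530_nt.Hs.Both

/-! The q-analogue of the divisibility has non-negative coefficients. -/

namespace Pool.Agent.Results.MP_698530_nt.QBothPositive

open Finset Polynomial

theorem result (a b n i j x y : ℕ) (hb : 1 ≤ b) (hab : b < a) (hn : 1 ≤ n)
    (hx : 3 * (a - b) = 2 ^ i * x) (hy : 3 * a - b = 2 ^ j * y)
    (h : a = b + 2 → n = 1 → i = 0 ∨ b ≤ 2) :
    ∃ R : ℤ[X], (∀ k, 0 ≤ R.coeff k) ∧
      R * ((1 - X ^ (2 * (b * n) + 1)) * (1 - X ^ (2 * (b * n) + 3)) *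
        ((∏ k ∈ range (a * n), (1 - X ^ (k + 1))) *
        (∏ k ∈ range ((a - b) * n), (1 - X ^ (k + 1))) *
          ∏ k ∈ range (2 * (b * n)), (1 - X ^ (k + 1)))) =
      (1 - X ^ x) * (1 - X ^ y) *
        ((∏ k ∈ range (2 * (a * n)), (1 - X ^ (k + 1))) *
          ∏ k ∈ range (b * n), (1 - X ^ (k + 1))) :=
  Pool.Agent.MP_698530_nt.Hs.q_one a b n i j x y hb hab hn hx hy h

end Pool.Agent.Results.MP_698530_nt.QBothPositive
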