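import Pool.Agent.MP_698530_nt.Two

/-! A quotient of q-factorials is divisible by both factors. -/

namespace Pool.Agent.Results.MP_698530_nt.QDivisible

open Finset Polynomial

theorem result (N K : ℕ) (h : K < N) : ∃ R : ℤ[X],
    R * ((1 - X ^ (2 * K + 1)) * (1 - X ^ (2 * K + 3)) * ((∏ i ∈ range N, (1 - X ^ (i + 1))) *
        (∏ i ∈ range (N - K), (1 - X ^ (i + 1))) * ∏ i ∈ range (2 * K), (1 - X ^ (i + 1)))) =
      (1 - X ^ Nat.gcd (N - K) ((2 * K + 1) * (2 * K + 3))) *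
        (1 - X ^ Nat.gcd (N - K - 1) (2 * K + 3)) *
        ((∏ i ∈ range (2 * N), (1 - X ^ (i + 1))) * ∏ i ∈ range K, (1 - X ^ (i + 1))) := by
  obtain ⟨p, rfl⟩ : ∃ p, N = K + (p + 1) := ⟨N - K - 1, by omega⟩
  rw [Nat.add_sub_cancel_left, Nat.add_sub_cancel]
  exact Pool.Agent.MP_698530_nt.two_factors K p

end Pool.Agent.Results.MP_698530_nt.QDivisible
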