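import Pool.Agent.MP_698530_nt.Main

/-! A quotient of q-factorials with non-negative coefficients. -/

namespace Pool.Agent.Results.MP_698530_nt.QPositive

open Finset Polynomial

theorem result (N K : ℕ) (h : K ≤ N) : ∃ R : ℤ[X], (∀ i, 0 ≤ R.coeff i) ∧
    R * ((1 - X ^ (2 * K + 1)) * ((∏ i ∈ range N, (1 - X ^ (i + 1))) *
        (∏ i ∈ range (N - K), (1 - X ^ (i + 1))) * ∏ i ∈ range (2 * K), (1 - X ^ (i + 1)))) =
      (1 - X ^ Nat.gcd (N - K) (2 * K + 1)) *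
        ((∏ i ∈ range (2 * N), (1 - X ^ (i + 1))) * ∏ i ∈ range K, (1 - X ^ (i + 1))) := by
  obtain ⟨p, rfl⟩ := Nat.exists_eq_add_of_le h
  rw [Nat.add_sub_cancel_left]
  exact Pool.Agent.MP_698530_nt.main_pos K p

end Pool.Agent.Results.MP_698530_nt.QPositive
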